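import Mathlib

namespace Pool.Agent.H.MP_7618c8_co

open Finset Function

theorem swap_count {Λ V : Type} [Fintype Λ] [DecidableEq Λ] [Fintype V]
    (P : (Λ → V) → Prop) [DecidablePred P] (v : Λ) :
    (univ.filter P).card * Fintype.card V =
      ∑ z : Λ → V, (univ.filter (fun x : V => P (update z v x))).card := by
  have hi : Involutive (fun p : (Λ → V) × V => (update p.1 v p.2, p.1 v)) := by
    intro p; simp
  have h1 := Equiv.sum_comp hi.toPerm (fun p : (Λ → V) × V => if P p.1 then 1 else 0)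
  simp only [Involutive.coe_toPerm] at h1
  rw [Fintype.sum_prod_type, Fintype.sum_prod_type] at h1
  dsimp only at h1
  simp only [card_filter]
  refine Eq.trans ?_ h1.symm
  rw [sum_mul]
  apply sum_congr rfl
  intro z _
  by_cases h : P z <;> simp [h]

theorem cnt_le {Λ V : Type} [Fintype Λ] [DecidableEq Λ] [Fintype V]
    (P Q : (Λ → V) → Prop) [DecidablePred P] [DecidablePred Q] (v : Λ) (k : ℕ)
    (h1 : ∀ z x, P (update z v x) → Q z)
    (h2 : ∀ z, (univ.filter (fun x : V => P (update z v x))).card ≤ k) :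
    (univ.filter P).card * Fintype.card V ≤ k * (univ.filter Q).card := by
  rw [swap_count P v, card_filter Q, mul_sum]
  apply sum_le_sum
  intro z _
  by_cases hq : Q z
  · simpa [hq] using h2 z
  · simp only [hq, if_false, mul_zero, Nat.le_zero, card_eq_zero, filter_eq_empty_iff]
    intro x _ hp
    exact hq (h1 z x hp)

theorem cnt_ge {Λ V : Type} [Fintype Λ] [DecidableEq Λ] [Fintype V]
    (P : (Λ → V) → Prop) [DecidablePred P] (v : Λ)
    (h : ∀ z, ∃ x, P (update z v x)) :
    Fintype.card (Λ → V) ≤ (univ.filter P).card * Fintype.card V := by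
  rw [swap_count P v, ← card_univ, card_eq_sum_ones]
  apply sum_le_sum
  intro z _
  obtain ⟨x, hx⟩ := h z
  exact card_pos.2 ⟨x, by simpa using hx⟩

variable {Λ F : Type} [Fintype Λ] [DecidableEq Λ] [Field F] {m : ℕ}

abbrev Vc (F : Type) (m : ℕ) := (Fin m → F) × (F × F × F)

def L (a : Λ → F) (z : Λ → Vc F m) : Vc F m := ∑ v, a v • z v

def con (F : Type) [Field F] (m : ℕ) (s : F) : Vc F m := (0, (1, s, s ^ 2))

theorem L_upd (a : Λ → F) (z : Λ → Vc F m) (v : Λ) (x : Vc F m) :
    L a (update z v x) = L a z + a v • (x - z v) := by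
  unfold L
  rw [← add_sum_erase _ _ (mem_univ v), ← add_sum_erase _ (fun u => a u • z u) (mem_univ v)]
  have : ∑ u ∈ univ.erase v, a u • update z v x u = ∑ u ∈ univ.erase v, a u • z u :=
    sum_congr rfl (fun u hu => by rw [update_of_ne (ne_of_mem_erase hu)])
  rw [this, update_self, smul_sub]
  abel

omit [DecidableEq Λ] in
theorem L_lin (a b : Λ → F) (s t : F) (z : Λ → Vc F m) :
    L (s • a + t • b) z = s • L a z + t • L b z := by
  unfold L
  rw [smul_sum, smul_sum, ← sum_add_distrib]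
  apply sum_congr rfl
  intro v _
  simp [add_smul, smul_smul]

omit [DecidableEq Λ] in
theorem L_smul (a : Λ → F) (s : F) (z : Λ → Vc F m) : L (s • a) z = s • L a z := by
  have := L_lin a a s 0 z
  simpa using this

theorem L_single (v : Λ) (z : Λ → Vc F m) : L (Pi.single v (1 : F)) z = z v := by
  unfold L
  rw [sum_eq_single v]
  · simp
  · intro u _ hu; simp [Pi.single_eq_of_ne hu]
  · simp

def W (z : Λ → Vc F m) (T : Finset Λ) (a : Λ → F) (s : F) : Prop :=
  L a z = con F m s ∧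
  (∀ b : Λ → F, (∀ v, v ∉ T → b v = 0) → (L b z).1 = 0 → ∃ t : F, b = t • a) ∧
  (∀ w, w ∉ T → ∀ b : Λ → F, (∀ v, v ∉ T → b v = 0) → z w ≠ L b z)

def good (z : Λ → Vc F m) (T : Finset Λ) : Prop :=
  ∃ (a : Λ → F) (s : F), (∀ v, a v ≠ 0 ↔ v ∈ T) ∧ W z T a s

theorem dist (z : Λ → Vc F m) (S : Finset Λ) (u v : Λ) (hu : u ∈ S) (huv : u ≠ v)
    (a b : Λ → F) (s : F) (ha : ∀ x, a x ≠ 0 ↔ x ∈ S.erase u) (hb : ∀ x, b x ≠ 0 ↔ x ∈ S.erase v)
    (wa : W z (S.erase u) a s) (wb : L b z = con F m s) : False := by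
  have hbu : b u ≠ 0 := (hb u).2 (mem_erase.2 ⟨huv, hu⟩)
  have hau : a u = 0 := by
    by_contra h
    exact (notMem_erase u S) ((ha u).1 h)
  apply wa.2.2 u (notMem_erase u S)
    ((1 : F) • ((b u)⁻¹ • a + (-(b u)⁻¹) • b) + (1 : F) • Pi.single u (1 : F))
  · intro x hx
    by_cases hxu : x = u
    · subst hxu
      simp [hau, hbu]
    · have hxS : x ∉ S := fun h => hx (mem_erase.2 ⟨hxu, h⟩)
      have h1 : a x = 0 := by
        by_contra h
        exact hx ((ha x).1 h)
      have h2 : b x = 0 := by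
        by_contra h
        exact hxS (mem_of_mem_erase ((hb x).1 h))
      simp [h1, h2, Pi.single_eq_of_ne hxu]
  · rw [L_lin, L_lin, L_single, wa.1, wb]
    simp

theorem three (z : Λ → Vc F m) (S : Finset Λ) (u v w : Λ) (hu : u ∈ S) (hv : v ∈ S)
    (huv : u ≠ v) (huw : u ≠ w) (hvw : v ≠ w)
    (g1 : good z (S.erase u)) (g2 : good z (S.erase v)) (g3 : good z (S.erase w)) : False := by
  obtain ⟨a, s, ha, wa⟩ := g1
  obtain ⟨b, t, hb, wb⟩ := g2
  obtain ⟨c, r, hc, wc⟩ := g3
  have h1 : s ≠ t := fun h => dist z S u v hu huv a b s ha hb wa (h ▸ wb.1)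
  have h2 : s ≠ r := fun h => dist z S u w hu huw a c s ha hc wa (h ▸ wc.1)
  have h3 : t ≠ r := fun h => dist z S v w hv hvw b c t hb hc wb (h ▸ wc.1)
  have hbu : b u ≠ 0 := (hb u).2 (mem_erase.2 ⟨huv, hu⟩)
  have e : L ((c u) • b + (-(b u)) • c) z = (c u) • con F m t + (-(b u)) • con F m r := by
    rw [L_lin, wb.1, wc.1]
  obtain ⟨k, hk⟩ := wa.2.1 ((c u) • b + (-(b u)) • c) (by
    intro x hx
    by_cases hxu : x = u
    · subst hxu
      simp [mul_comm]
    · have hxS : x ∉ S := fun h => hx (mem_erase.2 ⟨hxu, h⟩)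
      have h1 : b x = 0 := by
        by_contra h
        exact hxS (mem_of_mem_erase ((hb x).1 h))
      have h2 : c x = 0 := by
        by_contra h
        exact hxS (mem_of_mem_erase ((hc x).1 h))
      simp [h1, h2]) (by rw [e]; simp [con])
  rw [hk, L_smul, wa.1] at e
  simp only [con, Prod.smul_mk, Prod.mk_add_mk, Prod.mk.injEq, smul_eq_mul, mul_one] at e
  obtain ⟨_, e1, e2, e3⟩ := e
  have : b u * ((r - s) * (r - t)) = 0 := by
    linear_combination e3 - (s + t) * e2 + s * t * e1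
  rcases mul_eq_zero.1 this with h | h
  · exact hbu h
  · rcases mul_eq_zero.1 h with h | h
    · exact h2 (sub_eq_zero.1 h).symm
    · exact h3 (sub_eq_zero.1 h).symm

end Pool.Agent.H.MP_7618c8_co
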