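import Pool.Agent.H.MP_7618c8_co.A

namespace Pool.Agent.H.MP_7618c8_co

open Finset Function Classical

variable {Λ F : Type} [Fintype Λ] [DecidableEq Λ] [Field F] [Fintype F] {m : ℕ}

theorem cardV : Fintype.card (Vc F m) = Fintype.card F ^ m * Fintype.card F ^ 3 := by
  simp [Fintype.card_prod]; ring

theorem cntA (a : Λ → F) (v : Λ) (hv : a v ≠ 0) (c : Vc F m) :
    Fintype.card (Λ → Vc F m) ≤
      (univ.filter (fun z : Λ → Vc F m => L a z = c)).card * Fintype.card (Vc F m) := by
  apply cnt_ge _ v
  intro z
  refine ⟨z v + (a v)⁻¹ • (c - L a z), ?_⟩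
  rw [L_upd, add_sub_cancel_left, smul_smul, mul_inv_cancel₀ hv, one_smul]
  abel

theorem one_sol (a : Λ → F) (v : Λ) (hv : a v ≠ 0) (c : Vc F m) (z : Λ → Vc F m)
    (P : Vc F m → Prop) [DecidablePred P] (h : ∀ x, P x → L a (update z v x) = c) : (univ.filter P).card ≤ 1 := by
  rw [card_le_one]
  intro x hx y hy
  have h1 := h x (mem_filter.1 hx).2
  have h2 := h y (mem_filter.1 hy).2
  rw [L_upd] at h1 h2
  have h3 : a v • (x - z v) = a v • (y - z v) := add_left_cancel (h1.trans h2.symm)
  have := smul_right_injective _ hv h3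
  simpa using this

theorem cntB (a b : Λ → F) (u v : Λ) (hu : a u ≠ 0) (hbu : b u = 0) (hbv : b v = 1) (c : Vc F m) :
    (univ.filter (fun z : Λ → Vc F m => L a z = c ∧ (L b z).1 = 0)).card * Fintype.card F ^ m ≤
      (univ.filter (fun z : Λ → Vc F m => L a z = c)).card := by
  have h1 := cnt_le (fun z : Λ → Vc F m => L a z = c ∧ (L b z).1 = 0)
    (fun z => (L b z).1 = 0) u 1 (by
      intro z x h
      have := h.2
      rwa [L_upd, hbu, zero_smul, add_zero] at this)
    (fun z => one_sol a u hu c z
      (fun x => L a (update z u x) = c ∧ (L b (update z u x)).1 = 0) (fun x h => h.1))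
  have h2 := cnt_le (fun z : Λ → Vc F m => (L b z).1 = 0) (fun _ => True) v
    (Fintype.card F ^ 3) (fun _ _ _ => trivial) (by
      intro z
      have : Fintype.card F ^ 3 = (univ : Finset (F × F × F)).card := by
        simp [Fintype.card_prod]; ring
      rw [this]
      apply card_le_card_of_injOn Prod.snd (fun _ _ => by simp)
      intro x hx y hy hxy
      simp only [coe_filter, mem_univ, true_and, Set.mem_ofPred_eq] at hx hy
      rw [L_upd, hbv, one_smul] at hx hy
      refine Prod.ext ?_ hxy
      have := hx.trans hy.symm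
      simpa using this)
  rw [filter_true, card_univ] at h2
  have h3 := cntA a u hu c
  have hp : 0 < Fintype.card (Vc F m) := Fintype.card_pos
  have hq : 0 < Fintype.card F ^ 3 := pow_pos Fintype.card_pos 3
  set X := (univ.filter (fun z : Λ → Vc F m => L a z = c ∧ (L b z).1 = 0)).card
  set Y := (univ.filter (fun z : Λ → Vc F m => (L b z).1 = 0)).card
  set Z := (univ.filter (fun z : Λ → Vc F m => L a z = c)).card
  have h4 : Y ≤ Fintype.card F ^ 3 * Z := by
    apply Nat.le_of_mul_le_mul_right _ hp
    calc Y * Fintype.card (Vc F m) ≤ _ := h2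
      _ ≤ Fintype.card F ^ 3 * (Z * Fintype.card (Vc F m)) := Nat.mul_le_mul_left _ h3
      _ = _ := by ring
  apply Nat.le_of_mul_le_mul_left _ hq
  rw [cardV] at h1
  calc Fintype.card F ^ 3 * (X * Fintype.card F ^ m)
      = X * (Fintype.card F ^ m * Fintype.card F ^ 3) := by ring
    _ ≤ 1 * Y := h1
    _ ≤ _ := by omega

theorem cntC (a b : Λ → F) (w : Λ) (haw : a w = 0) (hbw : b w = 0) (c : Vc F m) :
    (univ.filter (fun z : Λ → Vc F m => L a z = c ∧ z w = L b z)).card * Fintype.card (Vc F m) ≤
      (univ.filter (fun z : Λ → Vc F m => L a z = c)).card := by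
  have h1 := cnt_le (fun z : Λ → Vc F m => L a z = c ∧ z w = L b z)
    (fun z => L a z = c) w 1 (by
      intro z x h
      have := h.1
      rwa [L_upd, haw, zero_smul, add_zero] at this) (by
      intro z
      rw [card_le_one]
      intro x hx y hy
      have h1 := (mem_filter.1 hx).2.2
      have h2 := (mem_filter.1 hy).2.2
      rw [L_upd, hbw, zero_smul, add_zero, update_self] at h1 h2
      exact h1.trans h2.symm)
  omega

omit [Fintype F] in
theorem card_supp (T : Finset Λ) (A : Finset F) :
    (Fintype.piFinset (fun v => if v ∈ T then A else {0})).card = A.card ^ T.card := by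
  rw [Fintype.card_piFinset]
  simp [apply_ite card]

theorem cntW (T : Finset Λ) (hT : T.card = m + 1) (a : Λ → F) (ha : ∀ v, a v ≠ 0 ↔ v ∈ T) (s : F)
    (h1 : 4 * m ≤ Fintype.card F) (h2 : 4 * Fintype.card Λ ≤ Fintype.card F ^ 2) :
    Fintype.card (Λ → Vc F m) ≤
      2 * (univ.filter (fun z : Λ → Vc F m => W z T a s)).card * Fintype.card (Vc F m) := by
  obtain ⟨u, hu⟩ : T.Nonempty := card_pos.1 (by omega)
  have hau : a u ≠ 0 := (ha u).2 hu
  set q := Fintype.card F with hq
  have qpos : 0 < q := Fintype.card_pos
  set Z := univ.filter (fun z : Λ → Vc F m => L a z = con F m s) with hZ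
  set B1 := (T.erase u).biUnion (fun v =>
    (Fintype.piFinset (fun x => if x ∈ (T.erase u).erase v then (univ : Finset F) else {0})).biUnion
      (fun b => univ.filter (fun z : Λ → Vc F m =>
        L a z = con F m s ∧ (L (b + Pi.single v 1) z).1 = 0))) with hB1
  set B2 := (univ.filter (fun w => w ∉ T)).biUnion (fun w =>
    (Fintype.piFinset (fun x => if x ∈ T then (univ : Finset F) else {0})).biUnion
      (fun b => univ.filter (fun z : Λ → Vc F m => L a z = con F m s ∧ z w = L b z))) with hB2
  have cover : Z ⊆ univ.filter (fun z : Λ → Vc F m => W z T a s) ∪ (B1 ∪ B2) := by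
    intro z hz
    have hz' : L a z = con F m s := (mem_filter.1 hz).2
    by_cases hw : W z T a s
    · exact mem_union_left _ (by simpa using hw)
    apply mem_union_right
    unfold W at hw
    by_cases c1 : ∀ b : Λ → F, (∀ v, v ∉ T → b v = 0) → (L b z).1 = 0 → ∃ t : F, b = t • a
    · apply mem_union_right
      have c2 : ¬ ∀ w, w ∉ T → ∀ b : Λ → F, (∀ v, v ∉ T → b v = 0) → z w ≠ L b z :=
        fun c2 => hw ⟨hz', c1, c2⟩
      push Not at c2
      obtain ⟨w, hw, b, hb, e⟩ := c2
      simp only [hB2, mem_biUnion, mem_filter, mem_univ, true_and, Fintype.mem_piFinset]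
      refine ⟨w, hw, b, ?_, hz', e⟩
      intro x
      split_ifs with h
      · simp
      · simp [hb x h]
    · apply mem_union_left
      push Not at c1
      obtain ⟨b, hb, e, hne⟩ := c1
      set d := (1 : F) • b + (-(b u / a u)) • a with hd
      have hdu : d u = 0 := by simp [hd, hau]
      have hd0 : ∃ v, d v ≠ 0 := by
        by_contra hc
        push Not at hc
        apply hne (b u / a u)
        funext x
        have := hc x
        simp only [hd, one_smul, Pi.add_apply, Pi.smul_apply, smul_eq_mul] at this
        simp only [Pi.smul_apply, smul_eq_mul]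
        linear_combination this
      obtain ⟨v, hv⟩ := hd0
      have hdT : ∀ x, x ∉ T → d x = 0 := by
        intro x hx
        have : a x = 0 := by
          by_contra h
          exact hx ((ha x).1 h)
        simp [hd, this, hb x hx]
      have hvT : v ∈ T := by
        by_contra h
        exact hv (hdT v h)
      have hvu : v ≠ u := fun h => hv (h ▸ hdu)
      have hLd : (L d z).1 = 0 := by
        rw [hd, L_lin, hz']
        simp [e, con]
      simp only [hB1, mem_biUnion, mem_filter, mem_univ, true_and, Fintype.mem_piFinset]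
      refine ⟨v, mem_erase.2 ⟨hvu, hvT⟩, (d v)⁻¹ • d - Pi.single v 1, ?_, hz', ?_⟩
      · intro x
        split_ifs with h
        · simp
        · by_cases hxv : x = v
          · subst hxv
            simp [hv]
          · have : d x = 0 := by
              by_cases hxu : x = u
              · rw [hxu]; exact hdu
              · exact hdT x (fun h' => h (mem_erase.2 ⟨hxv, mem_erase.2 ⟨hxu, h'⟩⟩))
            simp [this, Pi.single_eq_of_ne hxv]
      · rw [sub_add_cancel, L_smul]
        simp [hLd]
  have c1 : 4 * B1.card ≤ Z.card := by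
    have hp : 0 < q ^ m := pow_pos qpos m
    have : B1.card * q ^ m ≤ m * (q ^ (m - 1) * Z.card) := by
      rw [hB1]
      refine (Nat.mul_le_mul_right _ card_biUnion_le).trans ?_
      rw [sum_mul]
      refine (sum_le_card_nsmul _ _ (q ^ (m - 1) * Z.card) ?_).trans ?_
      · intro v hv
        refine (Nat.mul_le_mul_right _ card_biUnion_le).trans ?_
        rw [sum_mul]
        refine (sum_le_card_nsmul _ _ Z.card ?_).trans ?_
        · intro b hb
          rw [Fintype.mem_piFinset] at hb
          have b1 := hb u
          have b2 := hb v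
          simp only [mem_erase, ne_eq, not_true_eq_false, false_and, and_false, if_false,
            mem_singleton] at b1 b2
          apply cntB a _ u v hau
          · simp [b1, Pi.single_eq_of_ne (ne_of_mem_erase hv).symm]
          · simp [b2]
        · rw [card_supp, card_erase_of_mem hv, card_erase_of_mem hu, hT, card_univ]
          simp [hq]
      · rw [card_erase_of_mem hu, hT]
        simp
    rcases Nat.eq_zero_or_pos m with h0 | h0
    · subst h0
      simp at this
      simp [this]
    · obtain ⟨k, rfl⟩ : ∃ k, m = k + 1 := ⟨m - 1, by omega⟩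
      apply Nat.le_of_mul_le_mul_right _ hp
      simp only [Nat.add_sub_cancel] at this
      calc 4 * B1.card * q ^ (k + 1) = 4 * (B1.card * q ^ (k + 1)) := by ring
        _ ≤ 4 * ((k + 1) * (q ^ k * Z.card)) := Nat.mul_le_mul_left _ this
        _ = (4 * (k + 1)) * (q ^ k * Z.card) := by ring
        _ ≤ q * (q ^ k * Z.card) := Nat.mul_le_mul_right _ h1
        _ = _ := by ring
  have c2 : 4 * B2.card ≤ Z.card := by
    have hp : 0 < Fintype.card (Vc F m) := Fintype.card_pos
    have : B2.card * Fintype.card (Vc F m) ≤ Fintype.card Λ * (q ^ (m + 1) * Z.card) := by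
      rw [hB2]
      refine (Nat.mul_le_mul_right _ card_biUnion_le).trans ?_
      rw [sum_mul]
      refine (sum_le_card_nsmul _ _ (q ^ (m + 1) * Z.card) ?_).trans ?_
      · intro w hw
        have hw' : w ∉ T := (mem_filter.1 hw).2
        refine (Nat.mul_le_mul_right _ card_biUnion_le).trans ?_
        rw [sum_mul]
        refine (sum_le_card_nsmul _ _ Z.card ?_).trans ?_
        · intro b hb
          rw [Fintype.mem_piFinset] at hb
          have b1 := hb w
          simp only [hw', if_false, mem_singleton] at b1
          apply cntC a b w _ b1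
          by_contra h
          exact hw' ((ha w).1 h)
        · rw [card_supp, hT, card_univ]
          simp [hq]
      · rw [smul_eq_mul]
        exact Nat.mul_le_mul_right _ (card_le_univ _)
    apply Nat.le_of_mul_le_mul_right _ hp
    calc 4 * B2.card * Fintype.card (Vc F m) = 4 * (B2.card * Fintype.card (Vc F m)) := by ring
      _ ≤ 4 * (Fintype.card Λ * (q ^ (m + 1) * Z.card)) := Nat.mul_le_mul_left _ this
      _ = (4 * Fintype.card Λ) * (q ^ (m + 1) * Z.card) := by ring
      _ ≤ q ^ 2 * (q ^ (m + 1) * Z.card) := Nat.mul_le_mul_right _ h2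
      _ = _ := by rw [cardV]; ring
  have c3 := (card_le_card cover).trans (card_union_le _ _)
  have c4 := card_union_le B1 B2
  refine (cntA a u hau (con F m s)).trans (Nat.mul_le_mul_right _ ?_)
  rw [← hZ]
  omega

theorem cntG (T : Finset Λ) (hT : T.card = m + 1)
    (h1 : 4 * m ≤ Fintype.card F) (h2 : 4 * Fintype.card Λ ≤ Fintype.card F ^ 2) :
    (Fintype.card F - 1) ^ (m + 1) * Fintype.card F * Fintype.card (Λ → Vc F m) ≤
      2 * (univ.filter (fun z : Λ → Vc F m => good z T)).card * Fintype.card (Vc F m) := by
  set P := (Fintype.piFinset (fun x => if x ∈ T then (univ.erase (0 : F)) else {0})) ×ˢ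
    (univ : Finset F) with hP
  have hPm : ∀ p ∈ P, ∀ v, p.1 v ≠ 0 ↔ v ∈ T := by
    intro p hp v
    rw [hP, mem_product, Fintype.mem_piFinset] at hp
    have := hp.1 v
    by_cases h : v ∈ T
    · simpa [h] using this
    · simpa [h] using this
  have hc : P.card = (Fintype.card F - 1) ^ (m + 1) * Fintype.card F := by
    rw [hP, card_product, card_supp, hT, card_erase_of_mem (mem_univ _), card_univ]
  have hd : (P.biUnion (fun p => univ.filter (fun z : Λ → Vc F m => W z T p.1 p.2))).card =
      ∑ p ∈ P, (univ.filter (fun z : Λ → Vc F m => W z T p.1 p.2)).card := by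
    apply card_biUnion
    intro p hp p' hp' hne
    simp only [onFun]
    rw [disjoint_left]
    intro z hz hz'
    have w1 := (mem_filter.1 hz).2
    have w2 := (mem_filter.1 hz').2
    obtain ⟨t, ht⟩ := w1.2.1 p'.1 (by
      intro v hv
      by_contra h
      exact hv ((hPm p' hp' v).1 h)) (by rw [w2.1]; rfl)
    have e := w2.1
    rw [ht, L_smul, w1.1] at e
    simp only [con, Prod.smul_mk, Prod.mk.injEq, smul_eq_mul, mul_one] at e
    obtain ⟨_, e1, e2, _⟩ := e
    apply hne
    rw [e1, one_smul] at ht
    rw [e1, one_mul] at e2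
    exact Prod.ext ht.symm e2
  have hs : P.biUnion (fun p => univ.filter (fun z : Λ → Vc F m => W z T p.1 p.2)) ⊆
      univ.filter (fun z : Λ → Vc F m => good z T) := by
    intro z hz
    obtain ⟨p, hp, hz⟩ := mem_biUnion.1 hz
    exact mem_filter.2 ⟨mem_univ _, p.1, p.2, hPm p hp, (mem_filter.1 hz).2⟩
  have h3 := card_le_card hs
  rw [hd] at h3
  rw [← hc, ← smul_eq_mul]
  refine (card_nsmul_le_sum P _ _ (fun p hp => cntW T hT p.1 (hPm p hp) p.2 h1 h2)).trans ?_
  rw [← sum_mul, ← mul_sum]
  exact Nat.mul_le_mul_right _ (Nat.mul_le_mul_left _ h3)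

end Pool.Agent.H.MP_7618c8_co
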