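import Pool.Agent.H.MP_7618c8_co.B

namespace Pool.Agent.H.MP_7618c8_co

open Finset Function Classical

theorem bern (p k : ℕ) : (p + 1) ^ (k + 1) ≤ (p + 1) * p ^ k + k * (p + 1) ^ k := by
  induction k with
  | zero => simp
  | succ k ih =>
    have h := Nat.mul_le_mul_left p ih
    have e1 : (p + 1) ^ (k + 1 + 1) = p * (p + 1) ^ (k + 1) + (p + 1) ^ (k + 1) := by ring
    have e2 : p * ((p + 1) * p ^ k + k * (p + 1) ^ k) = (p + 1) * p ^ (k + 1) + k * (p * (p + 1) ^ k) := by
      ring
    have e3 : p * (p + 1) ^ k ≤ (p + 1) ^ (k + 1) := by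
      rw [pow_succ, mul_comm]; exact Nat.mul_le_mul_left _ (by omega)
    have e4 := Nat.mul_le_mul_left k e3
    have e5 : (k + 1) * (p + 1) ^ (k + 1) = k * (p + 1) ^ (k + 1) + (p + 1) ^ (k + 1) := by ring
    omega

theorem cntInj {ι Λ : Type} [Fintype ι] [DecidableEq ι] [Fintype Λ] [DecidableEq Λ] (T : Finset ι)
    (h0 : 0 < Fintype.card Λ) (h : 4 * (T.card * T.card) ≤ Fintype.card Λ) :
    3 * Fintype.card (ι → Λ) ≤ 4 * (univ.filter (fun f : ι → Λ => Set.InjOn f T)).card := by
  set B := T.offDiag.biUnion (fun p => univ.filter (fun f : ι → Λ => f p.1 = f p.2)) with hB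
  have cover : (univ : Finset (ι → Λ)) ⊆ univ.filter (fun f : ι → Λ => Set.InjOn f T) ∪ B := by
    intro f _
    by_cases hf : Set.InjOn f T
    · exact mem_union_left _ (by simpa using hf)
    · apply mem_union_right
      unfold Set.InjOn at hf
      push Not at hf
      obtain ⟨u, hu, v, hv, e, hne⟩ := hf
      rw [hB, mem_biUnion]
      exact ⟨(u, v), mem_offDiag.2 ⟨hu, hv, hne⟩, by simpa using e⟩
  have c1 : B.card * Fintype.card Λ ≤ (T.card * T.card) * Fintype.card (ι → Λ) := by
    rw [hB]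
    refine (Nat.mul_le_mul_right _ card_biUnion_le).trans ?_
    rw [sum_mul]
    refine (sum_le_card_nsmul _ _ (Fintype.card (ι → Λ)) ?_).trans ?_
    · intro p hp
      have hne := (mem_offDiag.1 hp).2.2
      have := cnt_le (fun f : ι → Λ => f p.1 = f p.2) (fun _ => True) p.2 1 (fun _ _ _ => trivial) (by
        intro z
        rw [card_le_one]
        intro x hx y hy
        have h1 := (mem_filter.1 hx).2
        have h2 := (mem_filter.1 hy).2
        rw [update_self, update_of_ne hne] at h1 h2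
        exact h1.symm.trans h2)
      rw [filter_true, card_univ, one_mul] at this
      exact this
    · rw [smul_eq_mul, offDiag_card]
      exact Nat.mul_le_mul_right _ (Nat.sub_le _ _)
  have c2 : 4 * B.card ≤ Fintype.card (ι → Λ) := by
    apply Nat.le_of_mul_le_mul_right _ h0
    calc 4 * B.card * Fintype.card Λ = 4 * (B.card * Fintype.card Λ) := by ring
      _ ≤ 4 * ((T.card * T.card) * Fintype.card (ι → Λ)) := Nat.mul_le_mul_left _ c1
      _ = (4 * (T.card * T.card)) * Fintype.card (ι → Λ) := by ring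
      _ ≤ Fintype.card Λ * Fintype.card (ι → Λ) := Nat.mul_le_mul_right _ h
      _ = _ := by ring
  have c3 := (card_le_card cover).trans (card_union_le _ _)
  rw [card_univ] at c3
  omega

theorem erase_of {ι : Type} [DecidableEq ι] {S T : Finset ι} (h : T ⊆ S) (hc : S.card = T.card + 1) :
    ∃ u ∈ S, T = S.erase u := by
  obtain ⟨u, hu, hn⟩ := exists_mem_notMem_of_card_lt_card (show T.card < S.card by omega)
  refine ⟨u, hu, eq_of_subset_of_card_le ?_ ?_⟩
  · intro x hx
    exact mem_erase.2 ⟨fun e => hn (e ▸ hx), h hx⟩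
  · rw [card_erase_of_mem hu]; omega

theorem blow {ι Λ F : Type} [Fintype ι] [DecidableEq ι] [Fintype Λ] [DecidableEq Λ] [Field F] {m : ℕ}
    (f : ι → Λ) (z : Λ → Vc F m) (r : ℕ) (S : Finset ι) (hS : S.card = r + 1) :
    (((powersetCard r univ).filter (fun T : Finset ι => Set.InjOn f T ∧ good z (T.image f))).filter
      (· ⊆ S)).card ≤ 2 := by
  by_contra hc
  obtain ⟨T1, T2, T3, h1, h2, h3, n12, n13, n23⟩ := two_lt_card_iff.1 (not_le.1 hc)
  simp only [mem_filter, mem_powersetCard] at h1 h2 h3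
  obtain ⟨u, hu, rfl⟩ := erase_of h1.2 (by omega)
  obtain ⟨v, hv, rfl⟩ := erase_of h2.2 (by omega)
  obtain ⟨w, hw, rfl⟩ := erase_of h3.2 (by omega)
  have huv : u ≠ v := fun e => n12 (by rw [e])
  have huw : u ≠ w := fun e => n13 (by rw [e])
  have hvw : v ≠ w := fun e => n23 (by rw [e])
  have hinj : Set.InjOn f S := by
    intro a ha b hb e
    have key : ∀ t, Set.InjOn f (S.erase t) → a ≠ t → b ≠ t → a = b := fun t ht h1 h2 =>
      ht (by simpa using ⟨ha, h1⟩) (by simpa using ⟨hb, h2⟩) e
    by_cases c1 : a ≠ u ∧ b ≠ u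
    · exact key u h1.1.2.1 c1.1 c1.2
    by_cases c2 : a ≠ v ∧ b ≠ v
    · exact key v h2.1.2.1 c2.1 c2.2
    by_cases c3 : a ≠ w ∧ b ≠ w
    · exact key w h3.1.2.1 c3.1 c3.2
    grind
  have im : ∀ t ∈ S, (S.erase t).image f = (S.image f).erase (f t) := by
    intro t ht
    ext y
    simp only [mem_image, mem_erase]
    constructor
    · rintro ⟨x, ⟨hx1, hx2⟩, rfl⟩
      exact ⟨fun e => hx1 (hinj hx2 ht e), x, hx2, rfl⟩
    · rintro ⟨hy, x, hx, rfl⟩
      exact ⟨x, ⟨fun e => hy (by rw [e]), hx⟩, rfl⟩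
  exact three z (S.image f) (f u) (f v) (f w) (mem_image_of_mem f hu) (mem_image_of_mem f hv)
    (fun e => huv (hinj hu hv e)) (fun e => huw (hinj hu hw e)) (fun e => hvw (hinj hv hw e))
    (im u hu ▸ h1.1.2.2) (im v hv ▸ h2.1.2.2) (im w hw ▸ h3.1.2.2)

theorem lower (r n : ℕ) (hr : 1 ≤ r) : ∃ G : Finset (Finset (Fin n)), (∀ e ∈ G, e.card = r) ∧
    (∀ S : Finset (Fin n), S.card = r + 1 → (G.filter (· ⊆ S)).card ≤ 2) ∧
    n.choose r ≤ 32 * r * G.card := by
  obtain ⟨m, rfl⟩ : ∃ m, r = m + 1 := ⟨r - 1, by omega⟩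
  obtain ⟨q, hq, q1, q2⟩ := Nat.exists_prime_lt_and_le_two_mul (4 * (m + 1)) (by omega)
  have := Fact.mk hq
  have cF : Fintype.card (ZMod q) = q := ZMod.card q
  set Λ := Fin (4 * ((m + 1) * (m + 1))) with hΛ
  have cΛ : Fintype.card Λ = 4 * ((m + 1) * (m + 1)) := Fintype.card_fin _
  have pΛ : 0 < Fintype.card Λ := by rw [cΛ]; positivity
  have : Nonempty Λ := Fintype.card_pos_iff.1 pΛ
  set G : (Fin n → Λ) × (Λ → Vc (ZMod q) m) → Finset (Finset (Fin n)) := fun p =>
    (powersetCard (m + 1) univ).filter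
      (fun T : Finset (Fin n) => Set.InjOn p.1 T ∧ good p.2 (T.image p.1)) with hG
  set A := Fintype.card (Fin n → Λ)
  set M := Fintype.card (Λ → Vc (ZMod q) m)
  have hsum : ∑ p, (G p).card = ∑ T ∈ powersetCard (m + 1) (univ : Finset (Fin n)),
      ∑ f ∈ univ.filter (fun f : Fin n → Λ => Set.InjOn f T),
        (univ.filter (fun z : Λ → Vc (ZMod q) m => good z (T.image f))).card := by
    simp only [hG, card_filter]
    rw [sum_comm]
    apply sum_congr rfl
    intro T _
    rw [Fintype.sum_prod_type, sum_filter]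
    apply sum_congr rfl
    intro f _
    by_cases h : Set.InjOn f T <;> simp [h]
  have hT : ∀ T ∈ powersetCard (m + 1) (univ : Finset (Fin n)),
      A * M ≤ 32 * (m + 1) * ∑ f ∈ univ.filter (fun f : Fin n → Λ => Set.InjOn f T),
        (univ.filter (fun z : Λ → Vc (ZMod q) m => good z (T.image f))).card := by
    intro T hT
    have cT := (mem_powersetCard.1 hT).2
    have h1 := cntInj (Λ := Λ) T pΛ (by rw [cT, cΛ])
    have h2 : ∀ f ∈ univ.filter (fun f : Fin n → Λ => Set.InjOn f T),
        M ≤ 24 * (m + 1) * (univ.filter (fun z : Λ → Vc (ZMod q) m => good z (T.image f))).card := by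
      intro f hf
      have := cntG (F := ZMod q) (T.image f)
        (by rw [card_image_of_injOn (mem_filter.1 hf).2, cT]) (by rw [cF]; omega)
        (by rw [cF, cΛ]; nlinarith)
      rw [cardV, cF] at this
      set g := (univ.filter (fun z : Λ → Vc (ZMod q) m => good z (T.image f))).card
      obtain ⟨p, rfl⟩ : ∃ p, q = p + 1 := ⟨q - 1, by omega⟩
      simp only [Nat.add_sub_cancel] at this
      have b := bern p (m + 1)
      have b1 : 4 * ((m + 1) * (p + 1) ^ (m + 1)) ≤ (p + 1) ^ (m + 1 + 1) := by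
        rw [pow_succ _ (m + 1)]
        nlinarith [Nat.zero_le ((p + 1) ^ (m + 1))]
      have b2 : (p + 1) * p ^ (m + 1) ≤ 8 * (m + 1) * p ^ (m + 1) :=
        Nat.mul_le_mul_right _ (by omega)
      have b3 : (p + 1) ^ (m + 1 + 1) ≤ 12 * (m + 1) * p ^ (m + 1) := by
        rw [mul_assoc] at b2 ⊢
        omega
      have hp : 0 < (p + 1) ^ (m + 1 + 1) * (p + 1) := by positivity
      apply Nat.le_of_mul_le_mul_left _ hp
      calc (p + 1) ^ (m + 1 + 1) * (p + 1) * M
          ≤ 12 * (m + 1) * p ^ (m + 1) * (p + 1) * M :=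
            Nat.mul_le_mul_right _ (Nat.mul_le_mul_right _ b3)
        _ = 12 * (m + 1) * (p ^ (m + 1) * (p + 1) * M) := by ring
        _ ≤ 12 * (m + 1) * (2 * g * ((p + 1) ^ m * (p + 1) ^ 3)) := Nat.mul_le_mul_left _ this
        _ = _ := by ring
    have h3 := card_nsmul_le_sum _ _ _ h2
    rw [← mul_sum, smul_eq_mul] at h3
    set c := (univ.filter (fun f : Fin n → Λ => Set.InjOn f T)).card
    set s := ∑ f ∈ univ.filter (fun f : Fin n → Λ => Set.InjOn f T),
        (univ.filter (fun z : Λ → Vc (ZMod q) m => good z (T.image f))).card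
    have h4 := Nat.mul_le_mul_right M h1
    nlinarith
  have h5 := card_nsmul_le_sum _ _ _ hT
  rw [← mul_sum, ← hsum, card_powersetCard, card_univ, Fintype.card_fin, smul_eq_mul, mul_sum] at h5
  obtain ⟨p, _, hp⟩ := exists_le_of_sum_le (s := univ) (f := fun _ => n.choose (m + 1))
    (g := fun p => 32 * (m + 1) * (G p).card) univ_nonempty (by
      rw [sum_const, card_univ, Fintype.card_prod, smul_eq_mul, mul_comm]
      exact h5)
  refine ⟨G p, ?_, ?_, hp⟩
  · intro e he
    exact (mem_powersetCard.1 (mem_filter.1 he).1).2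
  · intro S hS
    convert blow p.1 p.2 (m + 1) S hS

theorem upper (r n : ℕ) (hn : r < n) (G : Finset (Finset (Fin n))) (h1 : ∀ e ∈ G, e.card = r)
    (h2 : ∀ S : Finset (Fin n), S.card = r + 1 → (G.filter (· ⊆ S)).card ≤ 2) :
    (r + 1) * G.card ≤ 2 * n.choose r := by
  have h := card_mul_le_card_mul (s := G) (t := powersetCard (r + 1) (univ : Finset (Fin n)))
    (fun e S => e ⊆ S) (m := n - r) (n := 2) (by
      intro e he
      have : (univ \ e).card = n - r := by
        rw [card_sdiff_of_subset (subset_univ _), card_univ, Fintype.card_fin, h1 e he]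
      rw [← this]
      apply card_le_card_of_injOn (fun x => insert x e)
      · intro x hx
        have hx' : x ∉ e := by simpa using hx
        simp [card_insert_of_notMem hx', h1 e he]
      · intro x hx y _ hxy
        have hx' : x ∉ e := by simpa using hx
        have : x ∈ insert y e := by
          simp only at hxy
          rw [← hxy]; exact mem_insert_self _ _
        rcases mem_insert.1 this with h | h
        · exact h
        · exact absurd h hx') (by
      intro S hS
      convert h2 S (mem_powersetCard.1 hS).2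
      rfl)
  rw [card_powersetCard, card_univ, Fintype.card_fin] at h
  have e := Nat.choose_succ_right_eq n r
  apply Nat.le_of_mul_le_mul_right _ (show 0 < n - r by omega)
  nlinarith

end Pool.Agent.H.MP_7618c8_co
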